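import Pool.Agent.K7.H91.MJ.Real
import Pool.Agent.K7.H91.MJ.Eig
import Pool.Agent.K7.H91.MJ.Mat

/-!
# Taylor coefficients of `e ^ ((A + B) t)` and `e ^ (A t) e ^ (B t)`: two by two matrices

Let `A`, `B` be Hermitian two by two matrices, `H = A + B` and `Q_k = ∑ binom(k, i) A ^ i B ^ (k - i)`.
For every `k` the eigenvalues of `H ^ k` are weakly majorized by the singular values of `Q_k`.

Proof. Write `A = a + A₀`, `B = b + B₀` with `A₀`, `B₀` of trace zero, so that `A₀ ^ 2 = t ^ 2`,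
`B₀ ^ 2 = t' ^ 2`, `A₀ B₀ + B₀ A₀ = 2 g` with `g = t t' (2 l - 1)`, `0 ≤ l ≤ 1`. With `c = a + b` and the even and
the odd part `F`, `G` of `x ↦ (c + x) ^ k`, the singular values of `Q_k` are `| √(T ^ 2 + κ) ± √N |`, where
`T = l F(t + t') + (1 - l) F(t - t')`, `N = l G(t + t') ^ 2 + (1 - l) G(t - t') ^ 2` and `κ ≥ 0`, and the
eigenvalues of `H ^ k` are `F(h) ± G(h)` with `h ^ 2 = l (t + t') ^ 2 + (1 - l) (t - t') ^ 2`. For `c ≥ 0` the
functions `F(√y)` and `G(√y) ^ 2` are convex, so `F(h) ≤ T` and `G(h) ^ 2 ≤ N`.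
-/

set_option autoImplicit false

open Matrix Finset
open scoped ComplexOrder

namespace Pool.Agent.Results.MP_08c3d6_an.TwoByTwo

open Pool.Agent.K7.H91.MJ

/-- `Q_k = ∑ binom(k, i) A ^ i B ^ (k - i)`, the `k`-th derivative at `0` of `e ^ (t A) e ^ (t B)`. -/
noncomputable def Q (A B : Matrix (Fin 2) (Fin 2) ℂ) (k : ℕ) : Matrix (Fin 2) (Fin 2) ℂ :=
  ∑ i ∈ range (k + 1), (k.choose i : ℂ) • (A ^ i * B ^ (k - i))

/-- The singular values of `M`: the square roots of the eigenvalues of `Mᴴ M`, the larger one first. -/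
noncomputable def sing (M : Matrix (Fin 2) (Fin 2) ℂ) : Fin 2 → ℝ :=
  fun j => √(eig (isHermitian_conjTranspose_mul_self M) j)

/-- Weak majorization: for every `m` the sum of the first `m` entries of `x` is at most that of `y`. -/
def WeakMaj (x y : Fin 2 → ℝ) : Prop :=
  ∀ m : ℕ, ∑ j with j.1 < m, x j ≤ ∑ j with j.1 < m, y j

theorem exists_l {t t' g : ℝ} (ht : 0 ≤ t) (ht' : 0 ≤ t') (hg : g ^ 2 ≤ t ^ 2 * t' ^ 2) :
    ∃ l : ℝ, 0 ≤ l ∧ l ≤ 1 ∧ g = t * t' * (2 * l - 1) := by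
  have h0 : 0 ≤ t * t' := mul_nonneg ht ht'
  rcases h0.eq_or_lt with h | h
  · refine ⟨0, le_rfl, zero_le_one, ?_⟩
    have h1 : g ^ 2 ≤ 0 := by
      have : t ^ 2 * t' ^ 2 = (t * t') ^ 2 := by ring
      rw [this, ← h] at hg
      simpa using hg
    have h2 : g = 0 := by nlinarith [sq_nonneg g]
    rw [h2, ← h]
    ring
  · have h1 : |g| ≤ t * t' := by
      apply abs_le_of_sq_le_sq _ h0
      rw [mul_pow]
      exact hg
    obtain ⟨h2, h3⟩ := abs_le.1 h1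
    refine ⟨(g / (t * t') + 1) / 2, ?_, ?_, ?_⟩
    · have : -1 ≤ g / (t * t') := by rw [le_div_iff₀ h]; linarith
      linarith
    · have : g / (t * t') ≤ 1 := by rw [div_le_one h]; exact h3
      linarith
    · have h4 : t * t' ≠ 0 := h.ne'
      have h5 : 2 * ((g / (t * t') + 1) / 2) - 1 = g / (t * t') := by ring
      rw [h5, mul_comm, div_mul_cancel₀ g h4]

/-- **Main result.** For Hermitian two by two matrices `A`, `B` and every `k` the eigenvalues of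
`(A + B) ^ k` are weakly majorized by the singular values of `Q_k`. -/
theorem result (A B : Matrix (Fin 2) (Fin 2) ℂ) (hA : A.IsHermitian) (hB : B.IsHermitian) (k : ℕ) :
    WeakMaj (eig ((hA.add hB).pow k)) (sing (Q A B k)) := by
  obtain ⟨a, x, y, z, rfl⟩ := herm_eq hA
  obtain ⟨b, x', y', z', rfl⟩ := herm_eq hB
  have hm0 : 0 ≤ x ^ 2 + y ^ 2 + z ^ 2 := by positivity
  have hm0' : 0 ≤ x' ^ 2 + y' ^ 2 + z' ^ 2 := by positivity
  have hS := S_sq x y z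
  have hS' := S_sq x' y' z'
  have hm : √(x ^ 2 + y ^ 2 + z ^ 2) ^ 2 = x ^ 2 + y ^ 2 + z ^ 2 := Real.sq_sqrt hm0
  have hm' : √(x' ^ 2 + y' ^ 2 + z' ^ 2) ^ 2 = x' ^ 2 + y' ^ 2 + z' ^ 2 := Real.sq_sqrt hm0'
  have ht : 0 ≤ √(x ^ 2 + y ^ 2 + z ^ 2) := Real.sqrt_nonneg _
  have ht' : 0 ≤ √(x' ^ 2 + y' ^ 2 + z' ^ 2) := Real.sqrt_nonneg _
  generalize √(x ^ 2 + y ^ 2 + z ^ 2) = t at *
  generalize √(x' ^ 2 + y' ^ 2 + z' ^ 2) = t' at *
  have hg : (x * x' + y * y' + z * z') ^ 2 ≤ t ^ 2 * t' ^ 2 := by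
    rw [hm, hm']
    nlinarith [sq_nonneg (x * y' - y * x'), sq_nonneg (y * z' - z * y'), sq_nonneg (z * x' - x * z')]
  obtain ⟨l, h0, h1, hgl⟩ := exists_l ht ht' hg
  -- the matrix `Q`
  have hQ := Q_eq a (t ^ 2) b (t' ^ 2) (S x y z) (S x' y' z') (by rw [hS, hm]) (by rw [hS', hm']) k
  obtain ⟨hX1, hX2, hX3, hX4⟩ := X_sum a t b t' k
  have hQ' : Q ((a : ℂ) • (1 : Matrix (Fin 2) (Fin 2) ℂ) + S x y z)
      ((b : ℂ) • (1 : Matrix (Fin 2) (Fin 2) ℂ) + S x' y' z') k = _ := hQ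
  obtain ⟨hD1, hD2⟩ := tr_det x y z x' y' z' (X a (t ^ 2) b (t' ^ 2) k Prod.fst Prod.fst)
    (X a (t ^ 2) b (t' ^ 2) k Prod.snd Prod.fst) (X a (t ^ 2) b (t' ^ 2) k Prod.fst Prod.snd)
    (X a (t ^ 2) b (t' ^ 2) k Prod.snd Prod.snd)
  rw [← hQ'] at hD1 hD2
  generalize X a (t ^ 2) b (t' ^ 2) k Prod.fst Prod.fst = p at *
  generalize X a (t ^ 2) b (t' ^ 2) k Prod.snd Prod.fst = q at *
  generalize X a (t ^ 2) b (t' ^ 2) k Prod.fst Prod.snd = r at *
  generalize X a (t ^ 2) b (t' ^ 2) k Prod.snd Prod.snd = s at *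
  -- the sum `H`
  have hH : ((a : ℂ) • (1 : Matrix (Fin 2) (Fin 2) ℂ) + S x y z) +
      ((b : ℂ) • (1 : Matrix (Fin 2) (Fin 2) ℂ) + S x' y' z') =
      ((a + b : ℝ) : ℂ) • (1 : Matrix (Fin 2) (Fin 2) ℂ) + S (x + x') (y + y') (z + z') := by
    ext i j
    fin_cases i <;> fin_cases j <;> simp [S] <;> ring
  have hm2 : 0 ≤ (x + x') ^ 2 + (y + y') ^ 2 + (z + z') ^ 2 := by positivity
  have hh0 := Real.sqrt_nonneg ((x + x') ^ 2 + (y + y') ^ 2 + (z + z') ^ 2)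
  have hhs := Real.sq_sqrt hm2
  generalize √((x + x') ^ 2 + (y + y') ^ 2 + (z + z') ^ 2) = h at *
  have hpow := pow_eq (a + b) (h ^ 2) (S (x + x') (y + y') (z + z')) (by rw [S_sq, hhs]) k
  obtain ⟨hu1, -⟩ := uv_eq (a + b) h k
  have htr : ((((a : ℂ) • (1 : Matrix (Fin 2) (Fin 2) ℂ) + S x y z) +
      ((b : ℂ) • (1 : Matrix (Fin 2) (Fin 2) ℂ) + S x' y' z')) ^ k).trace =
      (((a + b + h) ^ k + (a + b - h) ^ k : ℝ) : ℂ) := by
    rw [hH, hpow, hu1, Matrix.trace_fin_two]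
    simp [S]
    ring
  have hdet : ((((a : ℂ) • (1 : Matrix (Fin 2) (Fin 2) ℂ) + S x y z) +
      ((b : ℂ) • (1 : Matrix (Fin 2) (Fin 2) ℂ) + S x' y' z')) ^ k).det =
      (((a + b + h) ^ k * (a + b - h) ^ k : ℝ) : ℂ) := by
    rw [Matrix.det_pow, hH, ← mul_pow, Complex.ofReal_pow]
    congr 1
    have e1 : (a + b + h) * (a + b - h) = (a + b) ^ 2 - ((x + x') ^ 2 + (y + y') ^ 2 + (z + z') ^ 2) := by
      rw [← hhs]; ring
    rw [e1, Matrix.det_fin_two]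
    apply Complex.ext <;> simp [S, pow_two] <;> ring
  -- eigenvalues of `H ^ k`
  have he1 := eig_sum ((hA.add hB).pow k)
  have he2 := eig_mul ((hA.add hB).pow k)
  rw [htr, Complex.ofReal_inj] at he1
  rw [hdet, Complex.ofReal_inj] at he2
  -- eigenvalues of `Qᴴ Q`
  generalize Q ((a : ℂ) • (1 : Matrix (Fin 2) (Fin 2) ℂ) + S x y z)
      ((b : ℂ) • (1 : Matrix (Fin 2) (Fin 2) ℂ) + S x' y' z') k = R at *
  have hs1 := eig_sum (isHermitian_conjTranspose_mul_self R)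
  have hs2 := eig_mul (isHermitian_conjTranspose_mul_self R)
  have hps := posSemidef_conjTranspose_mul_self R
  have hn0 := eig_nonneg (isHermitian_conjTranspose_mul_self R) hps 0
  have hn1 := eig_nonneg (isHermitian_conjTranspose_mul_self R) hps 1
  have hle := eig_le (isHermitian_conjTranspose_mul_self R)
  rw [hD1, Complex.ofReal_inj] at hs1
  rw [Matrix.det_mul, Matrix.det_conjTranspose, hD2] at hs2
  have hs2' : eig (isHermitian_conjTranspose_mul_self R) 0 * eig (isHermitian_conjTranspose_mul_self R) 1 =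
      ((p + s * (x * x' + y * y' + z * z')) ^ 2 - (q ^ 2 * (x ^ 2 + y ^ 2 + z ^ 2) +
        r ^ 2 * (x' ^ 2 + y' ^ 2 + z' ^ 2) + 2 * q * r * (x * x' + y * y' + z * z')) +
        s ^ 2 * ((x ^ 2 + y ^ 2 + z ^ 2) * (x' ^ 2 + y' ^ 2 + z' ^ 2) - (x * x' + y * y' + z * z') ^ 2)) ^ 2 := by
    have h2 : ∀ w : ℝ, star (w : ℂ) * (w : ℂ) = ((w ^ 2 : ℝ) : ℂ) := by
      intro w
      rw [Complex.star_def, Complex.conj_ofReal]
      push_cast
      ring
    rw [h2, Complex.ofReal_inj] at hs2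
    exact hs2
  rw [← hm, ← hm', hgl] at hs2' hs1
  have hκ : 0 ≤ s ^ 2 * (t ^ 2 * t' ^ 2 - (t * t' * (2 * l - 1)) ^ 2) := by
    rw [← hgl]
    exact mul_nonneg (sq_nonneg s) (by linarith)
  have hT : p + s * (t * t' * (2 * l - 1)) = l * F (a + b) k (t + t') + (1 - l) * F (a + b) k (t - t') := by
    unfold F
    linear_combination (1 / 4 : ℝ) * hX1 + (1 / 4 : ℝ) * (2 * l - 1) * hX4
  have hG1 : t * q = (G (a + b) k (t + t') + G (a + b) k (t - t')) / 2 := by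
    unfold G
    linear_combination (1 / 4 : ℝ) * hX2
  have hG2 : t' * r = (G (a + b) k (t + t') - G (a + b) k (t - t')) / 2 := by
    unfold G
    linear_combination (1 / 4 : ℝ) * hX3
  have hN : q ^ 2 * t ^ 2 + r ^ 2 * t' ^ 2 + 2 * q * r * (t * t' * (2 * l - 1)) =
      l * G (a + b) k (t + t') ^ 2 + (1 - l) * G (a + b) k (t - t') ^ 2 := by
    have e1 : q ^ 2 * t ^ 2 + r ^ 2 * t' ^ 2 + 2 * q * r * (t * t' * (2 * l - 1)) =
      (t * q) ^ 2 + (t' * r) ^ 2 + 2 * (t * q) * (t' * r) * (2 * l - 1) := by ring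
    rw [e1, hG1, hG2]
    ring
  have hh : h ^ 2 = l * (t + t') ^ 2 + (1 - l) * (t - t') ^ 2 := by
    have e1 : h ^ 2 = t ^ 2 + t' ^ 2 + 2 * (x * x' + y * y' + z * z') := by
      rw [hhs, hm, hm']; ring
    rw [e1, hgl]
    ring
  obtain ⟨f1, f2⟩ := final (k := k) (s0 := √(eig (isHermitian_conjTranspose_mul_self R) 0))
    (s1 := √(eig (isHermitian_conjTranspose_mul_self R) 1)) hh0 hh h0 h1 hκ hT hN
    (Real.sqrt_nonneg _) (Real.sqrt_le_sqrt hle)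
    (by rw [Real.sq_sqrt hn0, Real.sq_sqrt hn1]; exact hs1)
    (by rw [mul_pow, Real.sq_sqrt hn0, Real.sq_sqrt hn1]; exact hs2') he1 he2
  intro m
  rcases m with _ | _ | m
  · simp
  · simp only [Finset.sum_filter, Fin.sum_univ_two]
    simpa [sing] using f1
  · simp only [Finset.sum_filter, Fin.sum_univ_two]
    have e0 : ((0 : Fin 2) : ℕ) < m + 1 + 1 := by simp
    have e1 : ((1 : Fin 2) : ℕ) < m + 1 + 1 := by simp
    rw [if_pos e0, if_pos e1, if_pos e0, if_pos e1]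
    exact f2

end Pool.Agent.Results.MP_08c3d6_an.TwoByTwo
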